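import Pool.Agent.T9h94.CZ.Spec2

/-!
# MP_f5330b_al, group CZ, part 2, piece (E): pull-back of homomorphisms along close markings
-/

set_option autoImplicit false

namespace Pool.Agent.T9h66.CZ

open Pool.Agent.T9h94.CZ

/-- a homomorphism on words which kills the relations of a generating tuple factors -/
theorem exists_factor {α M P : Type} [Group M] [Group P] {Z : α → M} (hZ : Gen Z)
    (g : FreeGroup α →* P) (h : ∀ w, FreeGroup.lift Z w = 1 → g w = 1) :
    ∃ χ : M →* P, ∀ w, χ (FreeGroup.lift Z w) = g w := by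
  refine ⟨(FreeGroup.lift Z).liftOfSurjective hZ ⟨g, fun w hw => h w hw⟩, fun w => ?_⟩
  exact (FreeGroup.lift Z).liftOfRightInverse_comp_apply _ _ _ w

/-- homomorphisms on words which kill the relations of `Z` agree where `lift Z` agrees -/
theorem agree {α M P : Type} [Group M] [Group P] {Z : α → M} {φ : FreeGroup α →* P}
    (h : ∀ w, FreeGroup.lift Z w = 1 → φ w = 1) {a b : FreeGroup α}
    (hab : FreeGroup.lift Z a = FreeGroup.lift Z b) : φ a = φ b := by
  have h1 : φ (a * b⁻¹) = 1 := h _ (by rw [map_mul, map_inv, hab, mul_inv_cancel])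
  rw [map_mul, map_inv] at h1
  exact mul_inv_eq_one.mp h1

theorem lift_comp {α β M : Type} [Group M] (Z : β → M) (V : α → FreeGroup β) (w : FreeGroup α) :
    FreeGroup.lift Z (FreeGroup.lift V w) = FreeGroup.lift (fun j => FreeGroup.lift Z (V j)) w := by
  have h : (FreeGroup.lift Z).comp (FreeGroup.lift V) =
      FreeGroup.lift (fun j => FreeGroup.lift Z (V j)) := by
    ext j; simp
  exact DFunLike.congr_fun h w

/-- the words of the images -/
theorem map_lift {α M P : Type} [Group M] [Group P] (φ : M →* P) (Z : α → M) (w : FreeGroup α) :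
    FreeGroup.lift (fun j => φ (Z j)) w = φ (FreeGroup.lift Z w) := by
  have h : FreeGroup.lift (fun j => φ (Z j)) = φ.comp (FreeGroup.lift Z) := by
    ext j; simp
  exact DFunLike.congr_fun h w

theorem lift_of {α P : Type} [Group P] (φ : FreeGroup α →* P) :
    FreeGroup.lift (fun j => φ (FreeGroup.of j)) = φ := by
  ext j; simp

theorem sPull : SPull := by
  intro α M P _ _ _ Z hZ hE
  obtain ⟨B, hB, hBK, hBE⟩ := hE α {w | FreeGroup.lift Z w = 1}
  refine ⟨B, hB, fun Z' hZ' hC => ?_⟩
  have hB1 : ∀ w ∈ B, FreeGroup.lift Z' w = 1 := fun w hw => (hC w hw).2 (hBK hw)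
  choose V hV using fun j => hZ (Z' j)
  choose U hU using fun j => hZ' (Z j)
  set Vs : FreeGroup α →* FreeGroup α := FreeGroup.lift V with hVs
  set Us : FreeGroup α →* FreeGroup α := FreeGroup.lift U with hUs
  have hV2 : ∀ w, FreeGroup.lift Z (Vs w) = FreeGroup.lift Z' w := fun w => by
    rw [hVs, lift_comp]
    congr 2
    funext j
    exact hV j
  have hU2 : ∀ w, FreeGroup.lift Z' (Us w) = FreeGroup.lift Z w := fun w => by
    rw [hUs, lift_comp]
    congr 2
    funext j
    exact hU j
  have hH : ∀ φ : FreeGroup α →* P, (∀ w, FreeGroup.lift Z w = 1 → φ w = 1) →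
      ∀ w, FreeGroup.lift Z w = 1 → (φ.comp Vs) w = 1 := by
    intro φ hφ w hw
    have h1 := hBE (fun j => (φ.comp Vs) (FreeGroup.of j)) (fun v hv => by
      rw [lift_of]
      exact hφ _ (by rw [hV2, hB1 v hv])) w hw
    rwa [lift_of] at h1
  constructor
  · intro χ
    obtain ⟨χ', hχ'⟩ := exists_factor hZ (χ.comp (FreeGroup.lift Z')) (fun w hw => by
      have h1 := hH (χ.comp (FreeGroup.lift Z)) (fun v hv => by
        rw [MonoidHom.comp_apply, hv, map_one]) w hw
      rw [MonoidHom.comp_apply, MonoidHom.comp_apply, hV2] at h1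
      exact h1)
    exact ⟨χ', hχ'⟩
  · intro χ'
    -- the iterates of the pull-back
    let T : (FreeGroup α →* P) → (FreeGroup α →* P) := fun φ => φ.comp Vs
    let H : (FreeGroup α →* P) → Prop := fun φ => ∀ w, FreeGroup.lift Z w = 1 → φ w = 1
    have hT : ∀ φ, H φ → H (T φ) := fun φ hφ => hH φ hφ
    have hTk : ∀ k φ, H φ → H (T^[k] φ) := by
      intro k
      induction k with
      | zero => intro φ hφ; exact hφ
      | succ k ih => intro φ hφ; rw [Function.iterate_succ_apply]; exact ih _ (hT φ hφ)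
    let R : ℕ → Set (FreeGroup α) := fun k => {w | ∀ φ, H φ → T^[k] φ w = 1}
    have hmono : ∀ k, R k ⊆ R (k + 1) := by
      intro k w hw φ hφ
      rw [Function.iterate_succ_apply]
      exact hw _ (hT φ hφ)
    have hmono' : Monotone R := monotone_nat_of_le_succ hmono
    obtain ⟨S, hS, hSR, hSE⟩ := hE α (⋃ k, R k)
    obtain ⟨k, hk⟩ : ∃ k, S ⊆ R k := by
      have h1 : ∀ w ∈ S, ∃ k, w ∈ R k := fun w hw => Set.mem_iUnion.mp (hSR hw)
      choose! f hf using h1
      obtain ⟨K, hK⟩ := (hS.image f).bddAbove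
      exact ⟨K, fun w hw => hmono' (hK (Set.mem_image_of_mem f hw)) (hf w hw)⟩
    have hk1 : ∀ w, w ∈ R (k + 1) → w ∈ R k := by
      intro w hw φ hφ
      have h1 := hSE (fun j => (T^[k] φ) (FreeGroup.of j)) (fun v hv => by
        rw [lift_of]; exact hk hv φ hφ) w (Set.mem_iUnion.mpr ⟨k + 1, hw⟩)
      rwa [lift_of] at h1
    have hback : ∀ j φ, H φ → ∀ w, (T^[j] φ) (Us^[j] w) = φ w := by
      intro j
      induction j with
      | zero => intro φ _ w; rfl
      | succ j ih =>
        intro φ hφ w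
        rw [Function.iterate_succ_apply', Function.iterate_succ_apply']
        change (T^[j] φ) (Vs (Us (Us^[j] w))) = φ w
        rw [← ih φ hφ w]
        exact agree (hTk j φ hφ) (by rw [hV2, hU2])
    have h10 : ∀ w, w ∈ R 1 → w ∈ R 0 := by
      intro w hw φ hφ
      have h1 : Us^[k] w ∈ R (k + 1) := by
        intro φ hφ
        rw [Function.iterate_succ_apply, hback k _ (hT φ hφ)]
        exact hw φ hφ
      have h2 := hk1 _ h1 φ hφ
      rw [hback k φ hφ] at h2
      exact h2
    obtain ⟨χ, hχ⟩ := exists_factor hZ' (χ'.comp (FreeGroup.lift Z)) (fun w hw => by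
      have h1 : w ∈ R 1 := by
        intro φ hφ
        change φ (Vs w) = 1
        exact hφ _ (by rw [hV2, hw])
      exact h10 w h1 (χ'.comp (FreeGroup.lift Z)) (fun v hv => by
        rw [MonoidHom.comp_apply, hv, map_one]))
    exact ⟨χ, fun w => (hχ w).symm⟩

end Pool.Agent.T9h66.CZ
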