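import Pool.Agent.T9h94.CZ.Spec2

/-!
# MP_f5330b_al, group CZ, part 2, piece (G): finiteness of the set of kernels of direct type
-/

set_option autoImplicit false

namespace Pool.Agent.T9h66.CZ

open Pool.Agent.T9h94.CZ

/-- `lift x` of the commutator of `none` with a word in `some` -/
theorem lift_comm {α P : Type} [Group P] (p : P) (y : α → P) (v : FreeGroup α) :
    FreeGroup.lift (fun o : Option α => o.elim p y)
      (FreeGroup.of none * FreeGroup.map some v * (FreeGroup.of none)⁻¹ *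
        (FreeGroup.map some v)⁻¹) =
      p * FreeGroup.lift y v * p⁻¹ * (FreeGroup.lift y v)⁻¹ := by
  have h : ∀ v : FreeGroup α, FreeGroup.lift (fun o : Option α => o.elim p y)
      (FreeGroup.map some v) = FreeGroup.lift y v := by
    intro v
    have h1 : (FreeGroup.lift (fun o : Option α => o.elim p y)).comp (FreeGroup.map some) =
        FreeGroup.lift y := by
      ext j; simp
    exact DFunLike.congr_fun h1 v
  rw [map_mul, map_mul, map_mul, map_inv, map_inv, h, FreeGroup.lift_apply_of]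
  rfl

theorem sFinDir (hL : SHopf) : SFinDir := by
  intro α M P _ _ _ Z hZ hE hfg hP
  by_contra hinf0
  have hinf : {K : Subgroup M | ∃ χ : M →* P, Dir χ ∧ χ.ker = K}.Infinite := hinf0
  let e := Set.Infinite.natEmbedding _ hinf
  choose χ hχ hker using fun i => (e i).2
  have hne : ∀ i j, i ≠ j → (χ i).ker ≠ (χ j).ker := by
    intro i j hij h
    rw [hker i, hker j] at h
    exact hij (e.injective (Subtype.ext h))
  have hχ' : ∀ i, Function.Surjective (χ i) ∧ ∃ A : Subgroup M, A.map (χ i) = ⊤ ∧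
    ∀ a ∈ A, ∀ k ∈ (χ i).ker, ∀ ψ : M →* P, ψ (a * k) = ψ (k * a) := hχ
  choose hsurj A hA hcomm using hχ'
  have hdec : ∀ i (m : M), ∃ a ∈ A i, ∃ k ∈ (χ i).ker, m = a * k := by
    intro i m
    have h1 : χ i m ∈ (A i).map (χ i) := by rw [hA i]; trivial
    obtain ⟨a, ha, hae⟩ := h1
    exact ⟨a, ha, a⁻¹ * m, by rw [MonoidHom.mem_ker, map_mul, map_inv, hae, inv_mul_cancel],
      by group⟩
  have htriv : ∀ i j, i ≠ j → ∀ a ∈ A i, χ j a = 1 := by
    intro i j hij
    have h1 := hP ((A i).map (χ j)) ((χ i).ker.map (χ j)) (by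
        rintro _ ⟨a, ha, rfl⟩ _ ⟨k, hk, rfl⟩
        have := hcomm i a ha k hk (χ j)
        rwa [map_mul, map_mul] at this) (by
        rw [eq_top_iff]
        intro p _
        obtain ⟨m, rfl⟩ := hsurj j p
        obtain ⟨a, ha, k, hk, rfl⟩ := hdec i m
        rw [map_mul]
        exact mul_mem (Subgroup.mem_sup_left ⟨a, ha, rfl⟩) (Subgroup.mem_sup_right ⟨k, hk, rfl⟩))
    rcases h1 with h1 | h1
    · intro a ha
      have h2 : χ j a ∈ (A i).map (χ j) := ⟨a, ha, rfl⟩
      rw [h1] at h2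
      exact Subgroup.mem_bot.mp h2
    · exfalso
      have hle : (χ i).ker ≤ (χ j).ker := by
        intro k hk
        have h2 : χ j k ∈ ((χ i).ker).map (χ j) := ⟨k, hk, rfl⟩
        rw [h1] at h2
        exact Subgroup.mem_bot.mp h2
      let η := (χ i).liftOfSurjective (hsurj i) ⟨χ j, hle⟩
      have hη : ∀ m, η (χ i m) = χ j m := fun m => (χ i).liftOfRightInverse_comp_apply _ _ _ m
      have hηs : Function.Surjective η := fun p => by
        obtain ⟨m, rfl⟩ := hsurj j p
        exact ⟨χ i m, hη m⟩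
      have hinj := hL P hfg hE η hηs
      apply hne i j hij
      apply le_antisymm hle
      intro m hm
      rw [MonoidHom.mem_ker] at hm ⊢
      apply hinj
      rw [hη, hm, map_one]
  -- the equations
  choose s hs using hZ
  let c : M → FreeGroup (Option α) := fun a =>
    FreeGroup.of none * FreeGroup.map some (s a) * (FreeGroup.of none)⁻¹ *
        (FreeGroup.map some (s a))⁻¹
  have hc : ∀ (j : ℕ) (p : P) (a : M), FreeGroup.lift
      (fun o : Option α => o.elim p (fun i => χ j (Z i))) (c a) = p * χ j a * p⁻¹ * (χ j a)⁻¹ := by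
    intro j p a
    have h1 : FreeGroup.lift (fun i => χ j (Z i)) (s a) = χ j a := by
      have h2 : FreeGroup.lift (fun i => χ j (Z i)) = (χ j).comp (FreeGroup.lift Z) := by
        ext i; simp
      rw [h2, MonoidHom.comp_apply, hs]
    rw [lift_comm, h1]
  obtain ⟨T, hT, hTS, hTE⟩ := hE (Option α) {w | ∃ i, ∃ a ∈ A i, c a = w}
  obtain ⟨k, hk⟩ : ∃ k, ∀ w ∈ T, ∃ i, i < k ∧ ∃ a ∈ A i, c a = w := by
    have h1 : ∀ w ∈ T, ∃ i, ∃ a ∈ A i, c a = w := fun w hw => hTS hw
    choose! f hf using h1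
    obtain ⟨K, hK⟩ := (hT.image f).bddAbove
    exact ⟨K + 1, fun w hw => ⟨f w, Nat.lt_succ_of_le (hK (Set.mem_image_of_mem f hw)), hf w hw⟩⟩
  have hcom : ∀ a₀ ∈ A k, ∀ a ∈ A k, χ k a₀ * χ k a = χ k a * χ k a₀ := by
    intro a₀ _ a ha
    have h1 := hTE (fun o : Option α => o.elim (χ k a₀) (fun i => χ k (Z i))) (fun w hw => by
      obtain ⟨i, hik, b, hb, rfl⟩ := hk w hw
      rw [hc, htriv i k hik.ne b hb]
      simp) (c a) ⟨k, a, ha, rfl⟩
    rw [hc] at h1
    have h2 := mul_inv_eq_one.mp h1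
    exact mul_inv_eq_iff_eq_mul.mp h2
  have hcomP : ∀ p q : P, p * q = q * p := by
    intro p q
    have h1 : p ∈ (A k).map (χ k) := by rw [hA k]; trivial
    have h2 : q ∈ (A k).map (χ k) := by rw [hA k]; trivial
    obtain ⟨a, ha, rfl⟩ := h1
    obtain ⟨b, hb, rfl⟩ := h2
    exact hcom a ha b hb
  have hbot : (⊤ : Subgroup P) = ⊥ := by
    rcases hP ⊤ ⊤ (fun a _ b _ => hcomP a b) (by simp) with h | h <;> exact h
  have hall : ∀ p : P, p = 1 := fun p => by
    have h1 : p ∈ (⊤ : Subgroup P) := trivial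
    rw [hbot] at h1
    exact Subgroup.mem_bot.mp h1
  apply hne 0 1 (by norm_num)
  ext m
  rw [MonoidHom.mem_ker, MonoidHom.mem_ker, hall (χ 0 m), hall (χ 1 m)]

end Pool.Agent.T9h66.CZ
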